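import Pool.Agent.Q252.FS.G

/-!
# MP_50a406_nt: even exponents, two members with norms of the same absolute value

Let `K = ℚ(√d)` be a quadratic field, `d` squarefree, `n ≥ 4` even and `x ^ n + y ^ n = z ^ n` with `x, y, z`
nonzero in `K`.  If `d` is not `±1` modulo `8`, the absolute values of the norms of `x, y, z` are pairwise
different.
-/

set_option autoImplicit false

namespace Pool.Agent.Results.MP_50a406_nt.EqualNorms

/-- Let `K` be a quadratic field, `K = ℚ(r)` with `r ^ 2 = d`, `d ≠ 1` a squarefree integer, `n ≥ 4` even and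
`x ^ n + y ^ n = z ^ n` with `x, y, z ≠ 0` in `K`.
(1) If `d` is not `1` or `7` modulo `8`, then `|N x|`, `|N y|`, `|N z|` are pairwise different.
(2) If `|N x| = |N y|` and `d` is not `1` modulo `8`, then `d` is `7` modulo `8`, `n` is `2` modulo `4`, and every
prime divisor `p` of `n` which is `3` or `5` modulo `8` divides every integer `c` such that `c (x / z)` is integral.
(3) If `|N z|` is `|N x|` or `|N y|`, then `d = -1` and `n` is `2` modulo `4`. -/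
theorem result (K : Type) [Field K] [NumberField K] (hK : Module.finrank ℚ K = 2) (d : ℤ) (hd : Squarefree d)
    (hd1 : d ≠ 1) (r : K) (hr : r ^ 2 = (d : K)) (n : ℕ) (hn : 4 ≤ n) (he : Even n) (x y z : K) (hx : x ≠ 0)
    (hy : y ≠ 0) (hz : z ≠ 0) (h : x ^ n + y ^ n = z ^ n) :
    (d % 8 ≠ 1 → d % 8 ≠ 7 → |Algebra.norm ℚ x| ≠ |Algebra.norm ℚ y| ∧
      |Algebra.norm ℚ x| ≠ |Algebra.norm ℚ z| ∧ |Algebra.norm ℚ y| ≠ |Algebra.norm ℚ z|) ∧
    (|Algebra.norm ℚ x| = |Algebra.norm ℚ y| → d % 8 ≠ 1 → d % 8 = 7 ∧ n % 4 = 2 ∧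
      ∀ p : ℕ, p.Prime → p ∣ n → (p % 8 = 3 ∨ p % 8 = 5) →
        ∀ c : ℤ, IsIntegral ℤ ((c : K) * (x / z)) → (p : ℤ) ∣ c) ∧
    (|Algebra.norm ℚ z| = |Algebra.norm ℚ x| ∨ |Algebra.norm ℚ z| = |Algebra.norm ℚ y| →
      d = -1 ∧ n % 4 = 2) := by
  obtain ⟨σ, hσ⟩ := Q252.FS.exists_conj hK
  have h' : y ^ n + x ^ n = z ^ n := by rw [add_comm, h]
  have h3 : |Algebra.norm ℚ z| = |Algebra.norm ℚ x| ∨ |Algebra.norm ℚ z| = |Algebra.norm ℚ y| →
      d = -1 ∧ n % 4 = 2 := by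
    rintro (h1 | h1)
    · exact Q252.FS.anti hσ hd hd1 hr he hx hy h h1.symm
    · exact Q252.FS.anti hσ hd hd1 hr he hy hx h' h1.symm
  have h2 : |Algebra.norm ℚ x| = |Algebra.norm ℚ y| → d % 8 ≠ 1 → d % 8 = 7 ∧ n % 4 = 2 ∧
      ∀ p : ℕ, p.Prime → p ∣ n → (p % 8 = 3 ∨ p % 8 = 5) →
        ∀ c : ℤ, IsIntegral ℤ ((c : K) * (x / z)) → (p : ℤ) ∣ c := by
    intro h1 h8
    exact (Q252.FS.same hσ hd hd1 hr hn he hz h h1).resolve_left h8
  refine ⟨fun h8 h7 => ⟨fun h1 => h7 (h2 h1 h8).1, fun h1 => ?_, fun h1 => ?_⟩, h2, h3⟩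
  · obtain ⟨hd2, -⟩ := h3 (Or.inl h1.symm)
    rw [hd2] at h7
    exact h7 (by norm_num)
  · obtain ⟨hd2, -⟩ := h3 (Or.inr h1.symm)
    rw [hd2] at h7
    exact h7 (by norm_num)

end Pool.Agent.Results.MP_50a406_nt.EqualNorms
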