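import Pool.Agent.Q262.MQ.Main

/-!
# The criteria of Furtwaengler and Mirimanoff over quadratic fields

Let `K` be a quadratic field of discriminant `d`, `p` an odd prime, `x ^ n + y ^ n = z ^ n` a
solution in `K` with `x y z ≠ 0`, `p ∣ n`, in the first case for `p`: `x, y, z` have equal
valuations at the primes above `p`.

* Furtwaengler: let `r ≠ p` be any prime number such that `r ^ (p - 1)` is not congruent to `1`
  modulo `p ^ 2`. Then none of `x, y, z` is divisible by all primes above `r` to a higher power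
  than the others. So if `r` does not split in `K`, then `x, y, z` have equal valuations at the
  prime `v` above `r`, and `n` is not divisible by `N v - 1`: the first case holds for all
  exponents divisible by `p (r - 1)` if `r` ramifies, and by `p (r ^ 2 - 1)` if `r` is inert.
* Mirimanoff: let `3 ^ (p - 1)` not be congruent to `1` modulo `p ^ 2`, `p ≥ 5`. If `3` ramifies
  in `K`, or if `3` splits, `p ≥ 7` and `p` does not divide the Bernoulli number with index
  `p - 3` (or `- 7 d` and `- 15 d` are not nonzero squares modulo `p ≥ 11`), then `- 3 d` is a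
  nonzero square modulo `p`.

There is no condition on the class numbers and units of `K` or on the regularity of `p`.

Proof. Let `X ^ p + Y ^ p + Z ^ p = 0` in the first case, `A, B, C` the norms of `X, Y, Z` and `t` the
trace of `X` times the conjugate of `Y`. The norm `f (ζ) = A + t ζ + B ζ ^ 2` of `X + ζ Y` to the
field of `p`-th roots of unity is a rational number times the `p`-th power of an ideal. The relations
of Stickelberger for the Jacobi sums `J (χ, χ ^ a)` make products of its conjugates equal to a root of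
unity times a `p`-th power. The root of unity is computed modulo the square of `1 - ζ`. If `f` modulo
`r` agrees with its reciprocal polynomial up to sign and a power of the variable, it is also
determined by comparison with the complex conjugate relation in a residue field of characteristic
`r`; otherwise this field would contain elements of order `p ^ 2`. This gives a linear relation
between `A, B, C` modulo `p`. Here the index `a` is chosen such that the sum of the inverses of
the exponents of the relation is not zero modulo `p`, so that no condition on the Fermat quotient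
of two is needed.
-/

set_option autoImplicit false

namespace Pool.Agent.Results.MP_50a406_nt.MirimanoffQuadratic

open NumberField IsDedekindDomain

theorem result (K : Type) [Field K] [NumberField K] (hK : Module.finrank ℚ K = 2)
    (p n : ℕ) (hp : p.Prime) (hp2 : p ≠ 2) (hn : p ∣ n)
    (x y z : K) (h : x ^ n + y ^ n = z ^ n) (hx : x ≠ 0) (hy : y ≠ 0) (hz : z ≠ 0)
    (hv : ∀ v : HeightOneSpectrum (𝓞 K), (p : 𝓞 K) ∈ v.asIdeal →
      v.valuation K x = v.valuation K y ∧ v.valuation K y = v.valuation K z) :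
    (∀ r : ℕ, r.Prime → r ≠ p → ¬ p ^ 2 ∣ r ^ (p - 1) - 1 →
      (∃ v : HeightOneSpectrum (𝓞 K), (r : 𝓞 K) ∈ v.asIdeal ∧
        v.valuation K y ≤ v.valuation K x) ∧
      (∃ v : HeightOneSpectrum (𝓞 K), (r : 𝓞 K) ∈ v.asIdeal ∧
        v.valuation K x ≤ v.valuation K y) ∧
      (∃ v : HeightOneSpectrum (𝓞 K), (r : 𝓞 K) ∈ v.asIdeal ∧
        v.valuation K x ≤ v.valuation K z) ∧
      ∀ v : HeightOneSpectrum (𝓞 K), (r : 𝓞 K) ∈ v.asIdeal →
        (∀ w : HeightOneSpectrum (𝓞 K), (r : 𝓞 K) ∈ w.asIdeal → w = v) →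
        v.valuation K x = v.valuation K y ∧ v.valuation K y = v.valuation K z ∧
        ¬ Nat.card (𝓞 K ⧸ v.asIdeal) - 1 ∣ n) ∧
    (5 ≤ p → ¬ p ^ 2 ∣ 3 ^ (p - 1) - 1 →
      (3 ∣ NumberField.discr K ∨ (NumberField.discr K % 3 = 1 ∧
        ((7 ≤ p ∧ ¬ (p : ℤ) ∣ (bernoulli (p - 3)).num) ∨
          (11 ≤ p ∧ (¬ ∃ s : ZMod p, s ≠ 0 ∧ s ^ 2 = -7 * (NumberField.discr K : ZMod p)) ∧
            ¬ ∃ s : ZMod p, s ≠ 0 ∧ s ^ 2 = -15 * (NumberField.discr K : ZMod p))))) →
      ∃ s : ZMod p, s ≠ 0 ∧ s ^ 2 = -3 * (NumberField.discr K : ZMod p)) := by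
  have hn0 : n ≠ 0 := by
    rintro rfl
    rw [pow_zero, pow_zero, pow_zero] at h
    have : (1 : K) = 0 := by linear_combination h
    exact one_ne_zero this
  obtain ⟨k, rfl⟩ := hn
  have hk0 : k ≠ 0 := by
    rintro rfl
    exact hn0 (mul_zero _)
  have hodd : Odd p := hp.odd_of_ne_two hp2
  have hF : (x ^ k) ^ p + (y ^ k) ^ p + (-z ^ k) ^ p = 0 := by
    rw [hodd.neg_pow, ← pow_mul, ← pow_mul, ← pow_mul, mul_comm k p, h]
    ring
  have hxk := pow_ne_zero k hx
  have hyk := pow_ne_zero k hy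
  have hzk := neg_ne_zero.2 (pow_ne_zero k hz)
  have hvk : ∀ v : HeightOneSpectrum (𝓞 K), ((p : ℕ) : 𝓞 K) ∈ v.asIdeal →
      v.valuation K (x ^ k) = v.valuation K (y ^ k) ∧
        v.valuation K (y ^ k) = v.valuation K (-z ^ k) := by
    intro v hv'
    obtain ⟨h1, h2⟩ := hv v hv'
    rw [Valuation.map_neg, map_pow, map_pow, map_pow, h1, h2]
    exact ⟨rfl, rfl⟩
  refine ⟨?_, ?_⟩
  · intro r hr hrp hW
    have f1 : ∃ v : HeightOneSpectrum (𝓞 K), (r : 𝓞 K) ∈ v.asIdeal ∧
        v.valuation K y ≤ v.valuation K x := by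
      obtain ⟨v, h1, h2⟩ := Q262.MQ.furt hp hp2 r hr hrp hW hK hxk hyk hzk hF hvk
      refine ⟨v, h1, ?_⟩
      rw [map_pow, map_pow] at h2
      exact (pow_le_pow_iff_left₀ zero_le' zero_le' hk0).1 h2
    have f2 : ∃ v : HeightOneSpectrum (𝓞 K), (r : 𝓞 K) ∈ v.asIdeal ∧
        v.valuation K x ≤ v.valuation K y := by
      obtain ⟨v, h1, h2⟩ := Q262.MQ.furt hp hp2 r hr hrp hW hK hyk hxk hzk
        (by rw [← hF]; ring) (fun v hv' => ⟨(hvk v hv').1.symm, by
          rw [(hvk v hv').1, (hvk v hv').2]⟩)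
      refine ⟨v, h1, ?_⟩
      rw [map_pow, map_pow] at h2
      exact (pow_le_pow_iff_left₀ zero_le' zero_le' hk0).1 h2
    have f3 : ∃ v : HeightOneSpectrum (𝓞 K), (r : 𝓞 K) ∈ v.asIdeal ∧
        v.valuation K x ≤ v.valuation K z := by
      obtain ⟨v, h1, h2⟩ := Q262.MQ.furt hp hp2 r hr hrp hW hK hzk hxk hyk
        (by rw [← hF]; ring) (fun v hv' => ⟨by
          rw [(hvk v hv').1, (hvk v hv').2], (hvk v hv').1⟩)
      refine ⟨v, h1, ?_⟩
      rw [Valuation.map_neg, map_pow, map_pow] at h2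
      exact (pow_le_pow_iff_left₀ zero_le' zero_le' hk0).1 h2
    refine ⟨f1, f2, f3, ?_⟩
    intro v hrv huniq
    obtain ⟨v1, g1, g1'⟩ := f1
    obtain ⟨v2, g2, g2'⟩ := f2
    obtain ⟨v3, g3, g3'⟩ := f3
    rw [huniq v1 g1] at g1'
    rw [huniq v2 g2] at g2'
    rw [huniq v3 g3] at g3'
    have hxy : v.valuation K x = v.valuation K y := le_antisymm g2' g1'
    have hyz : v.valuation K y = v.valuation K z := by
      apply le_antisymm
      · rw [← hxy]
        exact g3'
      · have e1 : v.valuation K z ^ (p * k) ≤ v.valuation K y ^ (p * k) := by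
          rw [← map_pow, ← h]
          refine (Valuation.map_add _ _ _).trans ?_
          rw [map_pow, map_pow, hxy, max_self]
        exact (pow_le_pow_iff_left₀ zero_le' zero_le' hn0).1 e1
    refine ⟨hxy, hyz, ?_⟩
    rintro hdvd
    obtain ⟨a, X, Y, Z, hXa, hYa, hZa, hnn⟩ := Y546.WQ.scaleT (y := y) (z := z) hx {v}
    have hnn' := hnn v (Finset.mem_singleton_self v)
    have e : ∀ (w : K) (W : 𝓞 K), algebraMap (𝓞 K) K W = a * w →
        (W ∈ v.asIdeal ↔ v.valuation K a * v.valuation K w < 1) := by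
      intro w W hW
      rw [← map_mul, ← hW]
      exact (v.valuation_lt_one_iff_mem (K := K) W).symm
    have e1 : X ∈ v.asIdeal ↔ Y ∈ v.asIdeal := by rw [e x X hXa, e y Y hYa, hxy]
    have e2 : Y ∈ v.asIdeal ↔ Z ∈ v.asIdeal := by rw [e y Y hYa, e z Z hZa, hyz]
    have hX : X ∉ v.asIdeal := fun hX => hnn' ⟨hX, e1.1 hX, e2.1 (e1.1 hX)⟩
    have hY : Y ∉ v.asIdeal := fun hY => hX (e1.2 hY)
    have hZ : Z ∉ v.asIdeal := fun hZ => hY (e2.2 hZ)
    have hXYZ : X ^ (p * k) + Y ^ (p * k) = Z ^ (p * k) := by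
      apply RingOfIntegers.coe_injective
      rw [map_add, map_pow, map_pow, map_pow, hXa, hYa, hZa, mul_pow, mul_pow, mul_pow]
      linear_combination a ^ (p * k) * h
    haveI : v.asIdeal.IsMaximal := v.isMaximal
    letI : Field (𝓞 K ⧸ v.asIdeal) := Ideal.Quotient.field _
    haveI : Finite (𝓞 K ⧸ v.asIdeal) := Ideal.finiteQuotientOfFreeOfNeBot v.asIdeal v.ne_bot
    letI : Fintype (𝓞 K ⧸ v.asIdeal) := Fintype.ofFinite _
    have hone : ∀ W : 𝓞 K, W ∉ v.asIdeal → (Ideal.Quotient.mk v.asIdeal W) ^ (p * k) = 1 := by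
      intro W hW
      obtain ⟨q, hq⟩ := hdvd
      rw [hq, pow_mul, Nat.card_eq_fintype_card, FiniteField.pow_card_sub_one_eq_one _
        (fun h0 => hW (Ideal.Quotient.eq_zero_iff_mem.1 h0)), one_pow]
    have e3 := congrArg (Ideal.Quotient.mk v.asIdeal) hXYZ
    rw [map_add, map_pow, map_pow, map_pow, hone X hX, hone Y hY, hone Z hZ] at e3
    have e4 : (1 : 𝓞 K ⧸ v.asIdeal) = 0 := by linear_combination e3
    exact one_ne_zero e4
  · intro h5 hW hd
    refine Q262.MQ.mirim hp h5 hW hK ?_ hxk hyk hzk hF hvk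
    rcases hd with hd | ⟨hd, ⟨h7, hd'⟩ | hd'⟩
    · exact Or.inl hd
    · refine Or.inr ⟨hd, Or.inl ⟨h7, fun hk => hd' ?_⟩⟩
      unfold Y546.WQ.irr at hk
      exact (Finset.mem_filter.1 hk).2.2.2.2
    · exact Or.inr ⟨hd, Or.inr hd'⟩

end Pool.Agent.Results.MP_50a406_nt.MirimanoffQuadratic
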