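import Mathlib
import Pool.Agent.Q103.FER.Final

/-!
# Fermat's equation over quadratic fields at points with small digits, all exponents

For all quadratic fields `K` and all exponents `n ≥ 3` at once: if `x, y, z` have at most `k + 1`
digits of house at most `T ^ δ` in a base `t` of `K` whose conjugates lie between `T` and
`exp (T ^ (δ / 2))`, the last digits being `0` or roots of unity, not all zero, then
`x ^ n + y ^ n = z ^ n` has only the trivial solutions.
-/

set_option autoImplicit false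

namespace Pool.Agent.Results.MP_50a406_nt.SmallDigitPoints

open Polynomial NumberField Pool.Agent.Q103.FER

/-- at most `k + 1` digits, all conjugates of the digits at most `B`, and the last digit zero or a
root of unity (all its conjugates are at most `1`) -/
structure Digits {K : Type} [Field K] (B : ℝ) (k : ℕ) (f : (𝓞 K)[X]) : Prop where
  deg : f.natDegree ≤ k
  coeff : ∀ (j : ℕ) (σ : K →+* ℂ), ‖σ (f.coeff j)‖ ≤ B
  last : ∀ σ : K →+* ℂ, ‖σ (f.coeff 0)‖ ≤ 1

/-- a root of unity of a quadratic field with a power of order `6` has order `6` -/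
theorem order_six {K : Type} [Field K] [NumberField K] (hK : Module.finrank ℚ K = 2) {u : K}
    {n m : ℕ} (hm : 0 < m) (hu : u ^ m = 1) (h : IsPrimitiveRoot (u ^ n) 6) :
    IsPrimitiveRoot u 6 := by
  obtain ⟨N, hN⟩ : ∃ N, N = orderOf u := ⟨_, rfl⟩
  have hN0 : 0 < N := by
    rw [hN, orderOf_pos_iff]
    exact isOfFinOrder_iff_pow_eq_one.mpr ⟨m, hm, hu⟩
  have hprim : IsPrimitiveRoot u N := by rw [hN]; exact IsPrimitiveRoot.orderOf u
  have h6 : 6 ∣ N := by
    apply h.dvd_of_pow_eq_one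
    rw [← pow_mul, mul_comm, pow_mul, hprim.pow_eq_one, one_pow]
  obtain ⟨j, hj⟩ := h6
  have hint : IsIntegral ℤ u := hprim.isIntegral hN0
  have hφ : N.totient ≤ 2 := by
    have h1 := hprim.totient_le_degree_minpoly
    have h2 : (minpoly ℚ u).natDegree ≤ 2 := by
      rw [← hK]
      exact minpoly.natDegree_le u
    have h3 := minpoly.isIntegrallyClosed_eq_field_fractions' ℚ hint
    rw [h3] at h2
    have h4 : ((minpoly ℤ u).map (algebraMap ℤ ℚ)).natDegree = (minpoly ℤ u).natDegree :=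
      (minpoly.monic hint).natDegree_map _
    omega
  have hj1 : j = 1 := by
    have hj0 : j ≠ 0 := by rintro rfl; omega
    by_contra hne
    rcases Nat.lt_or_ge j 3 with h3 | h3
    · have h2 : j = 2 := by omega
      rw [hj, h2] at hφ
      have : Nat.totient (6 * 2) = 4 := by decide
      omega
    · have h1 := Nat.totient_super_multiplicative 6 j
      have h2 : Nat.totient 6 = 2 := by decide
      have h4 := Nat.totient_even (n := j) (by omega)
      have h5 : 0 < Nat.totient j := Nat.totient_pos.mpr (by omega)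
      obtain ⟨r, hr⟩ := h4
      rw [← hj, h2] at h1
      omega
  rw [hj, hj1, mul_one] at hprim
  exact hprim

theorem result (k : ℕ) : ∃ δ₀ : ℝ, 0 < δ₀ ∧ ∀ δ : ℝ, 0 < δ → δ ≤ δ₀ → ∃ T₀ : ℝ,
    ∀ T : ℝ, T₀ ≤ T → ∀ (K : Type) [Field K] [NumberField K], Module.finrank ℚ K = 2 →
    ∀ t : 𝓞 K, (∀ σ : K →+* ℂ, T ≤ ‖σ t‖ ∧ ‖σ t‖ ≤ Real.exp (T ^ (δ / 2))) →
    ∀ f g h : (𝓞 K)[X], Digits (T ^ δ) k f → Digits (T ^ δ) k g → Digits (T ^ δ) k h →
    (f.coeff 0 ≠ 0 ∨ g.coeff 0 ≠ 0 ∨ h.coeff 0 ≠ 0) →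
    ∀ x y z : 𝓞 K, x = f.eval t → y = g.eval t → z = h.eval t → x ≠ 0 → y ≠ 0 → z ≠ 0 →
    ∀ n : ℕ, 3 ≤ n → x ^ n + y ^ n = z ^ n →
    Nat.Coprime n 6 ∧ ∃ ζ : K, IsPrimitiveRoot ζ 6 ∧ (x : K) = ζ * z ∧ (y : K) = ζ ^ 5 * z := by
  obtain ⟨δ₀, hδ₀, hP⟩ := prp 2 k
  refine ⟨δ₀, hδ₀, fun δ hδ hδδ => ?_⟩
  obtain ⟨T₀, -, hT₀⟩ := hP δ hδ hδδ
  refine ⟨T₀, ?_⟩
  intro T hT K _ _ hd t ht f g h hf hg hh hex x y z hx hy hz hx0 hy0 hz0 n hn heq
  have hD : FData T (T ^ δ) k t ![f, g, h] := by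
    refine ⟨fun σ => (ht σ).1, ?_, ?_, ?_, ?_, ?_⟩
    · intro i
      fin_cases i
      · exact hf.deg
      · exact hg.deg
      · exact hh.deg
    · intro i j σ
      fin_cases i
      · exact hf.coeff j σ
      · exact hg.coeff j σ
      · exact hh.coeff j σ
    · intro i σ
      fin_cases i
      · exact hf.last σ
      · exact hg.last σ
      · exact hh.last σ
    · rcases hex with h1 | h1 | h1
      · exact ⟨0, h1⟩
      · exact ⟨1, h1⟩
      · exact ⟨2, h1⟩
    · intro i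
      fin_cases i
      · show f.eval t ≠ 0
        rw [← hx]; exact hx0
      · show g.eval t ≠ 0
        rw [← hy]; exact hy0
      · show h.eval t ≠ 0
        rw [← hz]; exact hz0
  have heq2 : ((![f, g, h] : Fin 3 → (𝓞 K)[X]) 0).eval t ^ n +
      ((![f, g, h] : Fin 3 → (𝓞 K)[X]) 1).eval t ^ n =
      ((![f, g, h] : Fin 3 → (𝓞 K)[X]) 2).eval t ^ n := by
    show f.eval t ^ n + g.eval t ^ n = h.eval t ^ n
    rw [← hx, ← hy, ← hz]
    exact heq
  have h1 := hT₀ T hT K hd.le t _ hD (fun σ => (ht σ).2) n hn heq2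
  obtain ⟨u, v, e1, e2, ⟨m, hm, hum, hvm⟩, e3, e4⟩ := conclusion hD h1 heq2
  have f1 : (x : K) = u * (z : K) := by rw [hx, hz]; exact e1
  have f2 : (y : K) = v * (z : K) := by rw [hy, hz]; exact e2
  have hu6 := order_six hd hm hum e3
  have e5 : IsPrimitiveRoot (v ^ n) 6 := by
    rw [e4]
    exact e3.pow_of_coprime 5 (by norm_num)
  have hv6 := order_six hd hm hvm e5
  have hco : Nat.Coprime n 6 := (hu6.pow_iff_coprime (by norm_num) n).mp e3
  obtain ⟨i, hi, hico, hiv⟩ := hu6.isPrimitiveRoot_iff.mp hv6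
  have hi5 : i = 5 := by
    interval_cases i
    · norm_num at hico
    · exfalso
      rw [pow_one] at hiv
      rw [← hiv] at e4
      have h4 : (u ^ n) ^ 4 = 1 := by
        have h0 : u ^ n ≠ 0 := e3.ne_zero (by norm_num)
        apply mul_left_cancel₀ h0
        rw [mul_one, ← pow_succ']
        exact e4.symm
      exact e3.pow_ne_one_of_pos_of_lt (by norm_num) (by norm_num) h4
    · norm_num at hico
    · norm_num at hico
    · norm_num at hico
    · rfl
  refine ⟨hco, u, hu6, f1, ?_⟩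
  rw [f2, ← hiv, hi5]

end Pool.Agent.Results.MP_50a406_nt.SmallDigitPoints
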