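import Pool.Agent.H105.EQ.Fin

/-!
# Terjanian's theorem over quadratic fields

Let `K` be a quadratic field of discriminant `D` in which two is not inert, and `p` an odd prime.
Suppose that every odd divisor `d` of `D` with `d = p` modulo eight (`d > 0` if `K` is real, `d` of
either sign if `K` is imaginary) is a quadratic nonresidue modulo `p` while `D` is a quadratic residue.
For example, there is no condition if no such divisor `d` exists. Let `x, y, z` be a nontrivial solution
of `x ^ n + y ^ n = z ^ n` in `K`, `n` divisible by `2 p`. Then either one of `x, y, z` is divisible by all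
primes of `K` above `2 p`, or two splits and `x`, `y` are divisible by different primes above two and
also by different primes above `p`. In particular the first case holds.

Proof. Let the prime `P` above two divide `x`. Let `c = z ^ 2 - y ^ 2`, `G` the sum of the powers of
`z ^ 2 / y ^ 2` with exponents less than `p`; then `c G` is a square. If no prime above `p` divides
`x`, then `c` has even valuations and positive norm `n ^ 2`, so `c (tr c + 2 n) = (c + n) ^ 2` and `c`
is a rational number `s` times a square. So `s` is, up to rational squares, a divisor of `D`,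
positive if `K` is real. As `G` is `p` modulo a high power of `P`, it follows that `p s` is a square at
`P`. Modulo a prime above `p`, `G` is a square, so `s` is a quadratic residue if `p` splits.
-/

set_option autoImplicit false

namespace Pool.Agent.Results.MP_50a406_nt.TerjanianQuadratic

open NumberField IsDedekindDomain

/-- The prime `w` of `K` divides `t`, after `t`, `a`, `b` have been divided by a common factor:
`t` is strictly smaller at `w` than `a` and `b`. -/
def Divides {K : Type} [Field K] [NumberField K] (w : HeightOneSpectrum (𝓞 K)) (t a b : K) : Prop :=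
  w.valuation K t < w.valuation K a ∧ w.valuation K t < w.valuation K b

theorem result (K : Type) [Field K] [NumberField K] (hK : Module.finrank ℚ K = 2)
    (h5 : discr K % 8 ≠ 5) (p n : ℕ) (hp : p.Prime) (hp2 : p ≠ 2)
    (hd : ∀ d : ℤ, Odd d → d ∣ discr K → (discr K < 0 ∨ 0 < d) → 8 ∣ (p : ℤ) - d →
      IsSquare (discr K : ZMod p) ∧ (discr K : ZMod p) ≠ 0 ∧ ¬ IsSquare (d : ZMod p))
    (hn : 2 * p ∣ n) (x y z : K) (h : x ^ n + y ^ n = z ^ n) (hx : x ≠ 0) (hy : y ≠ 0)
    (hz : z ≠ 0) :
    (∀ w : HeightOneSpectrum (𝓞 K), ((2 * p : ℕ) : 𝓞 K) ∈ w.asIdeal → Divides w x y z) ∨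
    (∀ w : HeightOneSpectrum (𝓞 K), ((2 * p : ℕ) : 𝓞 K) ∈ w.asIdeal → Divides w y x z) ∨
    (∀ w : HeightOneSpectrum (𝓞 K), ((2 * p : ℕ) : 𝓞 K) ∈ w.asIdeal → Divides w z x y) ∨
    ∃ P P' v v' : HeightOneSpectrum (𝓞 K), (2 : 𝓞 K) ∈ P.asIdeal ∧ (2 : 𝓞 K) ∈ P'.asIdeal ∧
      (p : 𝓞 K) ∈ v.asIdeal ∧ (p : 𝓞 K) ∈ v'.asIdeal ∧ Divides P x y z ∧ Divides v x y z ∧
      Divides P' y x z ∧ Divides v' y x z :=
  Pool.Agent.H105.EQ.four_main hK h5 hp hp2 hd hn hx hy hz h

end Pool.Agent.Results.MP_50a406_nt.TerjanianQuadratic
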